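import Pool.Agent.Helper21.DS.Mt

/-!
# PL, piece D: hidden levels do not change the sign of a polynomial

The values of the elements of `S` are `L * ∑ i, Y ^ (k - 1 - i) * u i (first i + 1 digits) + noise`, with independent
masks `u` of the cells. If only the levels with a mate in `S` are kept, the sign of a polynomial of degree at most `d` in
each variable changes for a proportion of at most `|S| d / M` of the masks.
-/

set_option autoImplicit false

namespace Pool.Agent.Helper64.PL

open Finset
open Pool.Agent.Helper23.SP (pre)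
open Pool.Agent.Helper21.DS (mt mem_mt mt_anti mt_zero mt_subset strc)

/-! ## One variable -/

/-- A polynomial with different signs at `a` and `c` has a root between them. -/
theorem exists_root_of_sign {p : Polynomial ℝ} {a c : ℝ} (hac : a ≤ c)
    (h : SignType.sign (p.eval c) ≠ SignType.sign (p.eval a)) : ∃ x ∈ Set.Icc a c, p.eval x = 0 := by
  by_contra hx
  push Not at hx
  have h1 : p.eval a ≠ 0 := hx a ⟨le_rfl, hac⟩
  have h2 : p.eval c ≠ 0 := hx c ⟨hac, le_rfl⟩
  have hcont : ContinuousOn (fun x => p.eval x) (Set.Icc a c) := p.continuous.continuousOn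
  rcases lt_or_gt_of_ne h1 with h3 | h3 <;> rcases lt_or_gt_of_ne h2 with h4 | h4
  · exact h (by rw [sign_neg h3, sign_neg h4])
  · obtain ⟨x, hx1, hx2⟩ := intermediate_value_Icc hac hcont (show (0 : ℝ) ∈ Set.Icc (p.eval a) (p.eval c) from
      ⟨h3.le, h4.le⟩)
    exact hx x hx1 hx2
  · obtain ⟨x, hx1, hx2⟩ := intermediate_value_Icc' hac hcont (show (0 : ℝ) ∈ Set.Icc (p.eval c) (p.eval a) from
      ⟨h4.le, h3.le⟩)
    exact hx x hx1 hx2
  · exact h (by rw [sign_pos h3, sign_pos h4])

open Classical in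
/-- One mask: the sign of a polynomial changes for at most `d` values of the mask. -/
theorem one_mask {M d : ℕ} (p : Polynomial ℝ) (hp : p.natDegree ≤ d) (A σ B : ℝ) (hB : 0 ≤ B) (hBσ : B < σ) :
    (univ.filter fun t : Fin M => SignType.sign (p.eval (A + σ * (t : ℕ) + B)) ≠
      SignType.sign (p.eval (A + σ * (t : ℕ)))).card ≤ d := by
  by_cases hp0 : p = 0
  · subst hp0
    simp
  have hσ : 0 < σ := lt_of_le_of_lt hB hBσ
  have key : ∀ t : Fin M, SignType.sign (p.eval (A + σ * (t : ℕ) + B)) ≠ SignType.sign (p.eval (A + σ * (t : ℕ))) →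
      ∃ x ∈ Set.Icc (A + σ * (t : ℕ)) (A + σ * (t : ℕ) + B), p.eval x = 0 := fun t ht =>
    exists_root_of_sign (by linarith) ht
  choose! f hf1 hf2 using key
  have h1 : (univ.filter fun t : Fin M => SignType.sign (p.eval (A + σ * (t : ℕ) + B)) ≠
      SignType.sign (p.eval (A + σ * (t : ℕ)))).card ≤ p.roots.toFinset.card := by
    refine card_le_card_of_injOn f ?_ ?_
    · intro t ht
      rw [mem_coe, mem_filter] at ht
      rw [mem_coe, Multiset.mem_toFinset, Polynomial.mem_roots hp0]
      exact hf2 t ht.2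
    · intro t ht t' ht' htt
      rw [mem_coe, mem_filter] at ht ht'
      have h2 := hf1 t ht.2
      have h3 := hf1 t' ht'.2
      rw [← htt] at h3
      have h4 : σ * ((t : ℕ) : ℝ) < σ * ((t' : ℕ) : ℝ) + σ := by
        have := h2.1
        have := h3.2
        linarith
      have h5 : σ * ((t' : ℕ) : ℝ) < σ * ((t : ℕ) : ℝ) + σ := by
        have := h3.1
        have := h2.2
        linarith
      have h6 : ((t : ℕ) : ℝ) < (t' : ℕ) + 1 := by
        have : σ * ((t : ℕ) : ℝ) < σ * (((t' : ℕ) : ℝ) + 1) := by linarith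
        exact lt_of_mul_lt_mul_left this hσ.le
      have h7 : ((t' : ℕ) : ℝ) < (t : ℕ) + 1 := by
        have : σ * ((t' : ℕ) : ℝ) < σ * (((t : ℕ) : ℝ) + 1) := by linarith
        exact lt_of_mul_lt_mul_left this hσ.le
      have h8 : (t : ℕ) < (t' : ℕ) + 1 := by exact_mod_cast h6
      have h9 : (t' : ℕ) < (t : ℕ) + 1 := by exact_mod_cast h7
      exact Fin.ext (by omega)
  refine h1.trans ((Multiset.toFinset_card_le _).trans ((Polynomial.card_roots' p).trans hp))

/-! ## Polynomials in one of the variables -/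

section poly

variable {El : Type} [DecidableEq El]

/-- The polynomial in the variable `e`, for given values of the other variables. -/
noncomputable def line (g : MvPolynomial El ℝ) (w : El → ℝ) (e : El) : Polynomial ℝ :=
  MvPolynomial.eval₂ Polynomial.C (fun e' => if e' = e then Polynomial.X else Polynomial.C (w e')) g

theorem line_eval (g : MvPolynomial El ℝ) (w : El → ℝ) (e : El) (x : ℝ) :
    (line g w e).eval x = MvPolynomial.eval (Function.update w e x) g := by
  unfold line
  rw [MvPolynomial.eval₂_eq, MvPolynomial.eval_eq, Polynomial.eval_finsetSum]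
  refine sum_congr rfl fun m _ => ?_
  rw [Polynomial.eval_mul, Polynomial.eval_C, Polynomial.eval_prod]
  congr 1
  refine prod_congr rfl fun e' _ => ?_
  rw [Polynomial.eval_pow]
  by_cases h : e' = e
  · subst h
    rw [if_pos rfl, Polynomial.eval_X, Function.update_self]
  · rw [if_neg h, Polynomial.eval_C, Function.update_of_ne h]

theorem line_natDegree (g : MvPolynomial El ℝ) (w : El → ℝ) (e : El) :
    (line g w e).natDegree ≤ g.degreeOf e := by
  unfold line
  rw [MvPolynomial.eval₂_eq]
  refine Polynomial.natDegree_sum_le_of_forall_le _ _ fun m hm => ?_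
  refine (Polynomial.natDegree_C_mul_le _ _).trans ?_
  refine (Polynomial.natDegree_prod_le _ _).trans ?_
  have h1 : ∀ i ∈ m.support, ((if i = e then Polynomial.X else Polynomial.C (w i) : Polynomial ℝ) ^ m i).natDegree ≤
      if i = e then m e else 0 := by
    intro i _
    by_cases h : i = e
    · subst h
      simp
    · rw [if_neg h, if_neg h, ← Polynomial.C_pow, Polynomial.natDegree_C]
  refine (sum_le_sum h1).trans ?_
  rw [sum_ite_eq']
  split_ifs
  · exact MvPolynomial.monomial_le_degreeOf e hm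
  · exact Nat.zero_le _

end poly

/-! ## One mask changed -/

section masks

variable {k b M : ℕ}

/-- Change the mask of one cell. -/
def upd (u : Fin k → (Fin k → Fin b) → Fin M) (i : Fin k) (c : Fin k → Fin b) (t : Fin M) :
    Fin k → (Fin k → Fin b) → Fin M :=
  Function.update u i (Function.update (u i) c t)

theorem upd_same (u : Fin k → (Fin k → Fin b) → Fin M) (i : Fin k) (c : Fin k → Fin b) (t : Fin M) :
    upd u i c t i c = t := by
  unfold upd
  rw [Function.update_self, Function.update_self]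

theorem upd_of_ne (u : Fin k → (Fin k → Fin b) → Fin M) (i : Fin k) (c : Fin k → Fin b) (t : Fin M) {j : Fin k}
    {c' : Fin k → Fin b} (h : j ≠ i ∨ c' ≠ c) : upd u i c t j c' = u j c' := by
  unfold upd
  by_cases hj : j = i
  · subst hj
    rw [Function.update_self, Function.update_of_ne (h.resolve_left (fun h => h rfl))]
  · rw [Function.update_of_ne hj]

theorem upd_upd (u : Fin k → (Fin k → Fin b) → Fin M) (i : Fin k) (c : Fin k → Fin b) (t t' : Fin M) :
    upd (upd u i c t) i c t' = upd u i c t' := by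
  funext j c'
  by_cases h : j ≠ i ∨ c' ≠ c
  · rw [upd_of_ne _ _ _ _ h, upd_of_ne _ _ _ _ h, upd_of_ne _ _ _ _ h]
  · push Not at h
    obtain ⟨rfl, rfl⟩ := h
    rw [upd_same, upd_same]

theorem upd_self (u : Fin k → (Fin k → Fin b) → Fin M) (i : Fin k) (c : Fin k → Fin b) :
    upd u i c (u i c) = u := by
  funext j c'
  by_cases h : j ≠ i ∨ c' ≠ c
  · rw [upd_of_ne _ _ _ _ h]
  · push Not at h
    obtain ⟨rfl, rfl⟩ := h
    rw [upd_same]

/-- Averaging over one mask. -/
theorem avg_mask {d : ℕ} (P : (Fin k → (Fin k → Fin b) → Fin M) → Prop) [DecidablePred P] (i : Fin k)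
    (c : Fin k → Fin b) (h : ∀ u, (univ.filter fun t => P (upd u i c t)).card ≤ d) :
    (univ.filter P).card * M ≤ d * Fintype.card (Fin k → (Fin k → Fin b) → Fin M) := by
  have h1 : ((univ.filter P) ×ˢ (univ : Finset (Fin M))).card ≤
      ((univ : Finset (Fin k → (Fin k → Fin b) → Fin M)).sigma fun u => univ.filter fun t => P (upd u i c t)).card := by
    refine card_le_card_of_injOn (fun z => ⟨upd z.1 i c z.2, z.1 i c⟩) ?_ ?_
    · rintro ⟨u, t⟩ hz
      rw [mem_coe, mem_product, mem_filter] at hz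
      rw [mem_coe, mem_sigma, mem_filter]
      refine ⟨mem_univ _, mem_univ _, ?_⟩
      show P (upd (upd u i c t) i c (u i c))
      rw [upd_upd, upd_self]
      exact hz.1.2
    · rintro ⟨u, t⟩ - ⟨u', t'⟩ - hz
      simp only [Sigma.mk.injEq, heq_eq_eq] at hz
      obtain ⟨h2, h3⟩ := hz
      have h4 : t = t' := by
        have := congrFun (congrFun h2 i) c
        rwa [upd_same, upd_same] at this
      have h5 : u = u' := by
        have := congrArg (fun v => upd v i c (u i c)) h2
        simp only [upd_upd] at this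
        rw [upd_self, h3, upd_self] at this
        exact this
      rw [h4, h5]
  rw [card_product, card_univ, Fintype.card_fin] at h1
  refine h1.trans ?_
  rw [card_sigma, mul_comm d, ← card_univ, ← smul_eq_mul, ← sum_const]
  exact sum_le_sum fun u _ => h u

end masks

/-! ## The hybrid argument -/

section hybrid

variable {El : Type} [DecidableEq El] {k b M : ℕ} [NeZero b]

/-- The value of an element. -/
def fv (L Y : ℕ) (u : Fin k → (Fin k → Fin b) → Fin M) (dg : El → Fin k → Fin b) (nu : El → ℤ) (e : El) : ℤ :=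
  (L : ℤ) * strc Y u (dg e) + nu e

/-- The revealed part of the value of an element. -/
def rv (L Y : ℕ) (S : Finset El) (u : Fin k → (Fin k → Fin b) → Fin M) (dg : El → Fin k → Fin b) (nu : El → ℤ)
    (e : El) : ℤ :=
  (∑ i : Fin k, if e ∈ mt S dg i.val then
      (L : ℤ) * (Y : ℤ) ^ (k - 1 - i.val) * ((u i (pre (i.val + 1) (dg e)) : ℕ) : ℤ)
    else 0) +
  (if e ∈ mt S dg k then nu e else 0)

theorem tail_aux {L Y : ℕ} (hY : M ≤ Y) (a : Fin k → Fin M) (v : ℤ) (hv : v < L) (n : ℕ) (hn : n < k) :
    (∑ j : Fin k, if k - 1 - n < j.val then (L : ℤ) * (Y : ℤ) ^ (k - 1 - j.val) * ((a j : ℕ) : ℤ) else 0) + v <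
      (L : ℤ) * (Y : ℤ) ^ n := by
  induction n with
  | zero =>
    rw [sum_eq_zero, pow_zero, mul_one, zero_add]
    · exact hv
    · intro j _
      rw [if_neg]
      have := j.isLt
      omega
  | succ n ih =>
    have ih' := ih (by omega)
    let j0 : Fin k := ⟨k - 1 - n, by omega⟩
    have h1 : ∀ j : Fin k, (if k - 1 - (n + 1) < j.val then
        (L : ℤ) * (Y : ℤ) ^ (k - 1 - j.val) * ((a j : ℕ) : ℤ) else 0) =
        (if k - 1 - n < j.val then (L : ℤ) * (Y : ℤ) ^ (k - 1 - j.val) * ((a j : ℕ) : ℤ) else 0) +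
        (if j = j0 then (L : ℤ) * (Y : ℤ) ^ (k - 1 - j.val) * ((a j : ℕ) : ℤ) else 0) := by
      intro j
      have hj := j.isLt
      by_cases h2 : j = j0
      · have h3 : j.val = k - 1 - n := by rw [h2]
        rw [if_pos h2, if_pos (by omega), if_neg (by omega), zero_add]
      · have h3 : j.val ≠ k - 1 - n := fun h => h2 (Fin.ext h)
        rw [if_neg h2, add_zero]
        by_cases h4 : k - 1 - n < j.val
        · rw [if_pos h4, if_pos (by omega)]
        · rw [if_neg h4, if_neg (by omega)]
    rw [sum_congr rfl fun j _ => h1 j, sum_add_distrib, sum_ite_eq' univ j0, if_pos (mem_univ _)]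
    have h2 : k - 1 - (j0 : Fin k).val = n := by
      show k - 1 - (k - 1 - n) = n
      omega
    rw [h2]
    have h3 : (((a j0 : ℕ) : ℤ)) + 1 ≤ Y := by
      have := (a j0).isLt
      omega
    have h4 : (0 : ℤ) ≤ (L : ℤ) * (Y : ℤ) ^ n := by positivity
    calc _ = ((∑ j : Fin k, if k - 1 - n < j.val then (L : ℤ) * (Y : ℤ) ^ (k - 1 - j.val) * ((a j : ℕ) : ℤ) else 0) +
          v) + (L : ℤ) * (Y : ℤ) ^ n * ((a j0 : ℕ) : ℤ) := by ring
      _ < (L : ℤ) * (Y : ℤ) ^ n + (L : ℤ) * (Y : ℤ) ^ n * ((a j0 : ℕ) : ℤ) := by linarith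
      _ = (L : ℤ) * (Y : ℤ) ^ n * (((a j0 : ℕ) : ℤ) + 1) := by ring
      _ ≤ (L : ℤ) * (Y : ℤ) ^ n * Y := mul_le_mul_of_nonneg_left h3 h4
      _ = _ := by ring

/-- The levels below one level are smaller than its unit. -/
theorem tail_lt {L Y : ℕ} (hY : M ≤ Y) (i : Fin k) (a : Fin k → Fin M) (v : ℤ) (hv : v < L) :
    (∑ j : Fin k, if i.val < j.val then (L : ℤ) * (Y : ℤ) ^ (k - 1 - j.val) * ((a j : ℕ) : ℤ) else 0) + v <
      (L : ℤ) * (Y : ℤ) ^ (k - 1 - i.val) := by
  have hi := i.isLt
  have h := tail_aux hY a v hv (k - 1 - i.val) (by omega)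
  have h1 : k - 1 - (k - 1 - i.val) = i.val := by omega
  rw [h1] at h
  exact h

/-- The values of the elements when those of `T` are replaced by their revealed parts. -/
def wv (L Y : ℕ) (S T : Finset El) (u : Fin k → (Fin k → Fin b) → Fin M) (dg : El → Fin k → Fin b) (nu : El → ℤ)
    (y : El → ℝ) (e : El) : ℝ :=
  if e ∈ S then (if e ∈ T then (rv L Y S u dg nu e : ℝ) else (fv L Y u dg nu e : ℝ)) else y e

theorem rv_eq_fv {L Y : ℕ} {S : Finset El} {u : Fin k → (Fin k → Fin b) → Fin M} {dg : El → Fin k → Fin b}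
    {nu : El → ℤ} {e : El} (h : e ∈ mt S dg k) : rv L Y S u dg nu e = fv L Y u dg nu e := by
  unfold rv fv strc
  rw [if_pos h, mul_sum]
  congr 1
  refine sum_congr rfl fun i _ => ?_
  rw [if_pos (mt_anti S dg i.isLt.le h), mul_assoc]

/-- The last level of an element. -/
theorem exists_level {S : Finset El} {dg : El → Fin k → Fin b} {e : El} (hS : e ∈ S) (h : e ∉ mt S dg k) :
    ∃ i : Fin k, e ∈ mt S dg i.val ∧ e ∉ mt S dg (i.val + 1) := by
  classical
  have h1 : ∃ r, e ∉ mt S dg r := ⟨k, h⟩
  have h2 : Nat.find h1 ≠ 0 := by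
    intro h3
    have := Nat.find_spec h1
    rw [h3, mt_zero] at this
    exact this hS
  have h3 : Nat.find h1 ≤ k := Nat.find_min' h1 h
  refine ⟨⟨Nat.find h1 - 1, by omega⟩, ?_, ?_⟩
  · by_contra h4
    exact Nat.find_min h1 (by omega : Nat.find h1 - 1 < Nat.find h1) h4
  · have h5 : Nat.find h1 - 1 + 1 = Nat.find h1 := by omega
    show e ∉ mt S dg (Nat.find h1 - 1 + 1)
    rw [h5]
    exact Nat.find_spec h1

open Classical in
/-- One step of the hybrid argument. -/
theorem step {L Y d : ℕ} (hY : M ≤ Y) (S T : Finset El) (dg : El → Fin k → Fin b) (nu : El → ℤ)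
    (hnu : ∀ e ∈ S, 0 ≤ nu e ∧ nu e < L) (y : El → ℝ) (g : MvPolynomial El ℝ) {e : El} (he : e ∈ S) (heT : e ∉ T)
    (hg : g.degreeOf e ≤ d) :
    (univ.filter fun u : Fin k → (Fin k → Fin b) → Fin M =>
      SignType.sign (MvPolynomial.eval (wv L Y S T u dg nu y) g) ≠
        SignType.sign (MvPolynomial.eval (wv L Y S (insert e T) u dg nu y) g)).card * M ≤
      d * Fintype.card (Fin k → (Fin k → Fin b) → Fin M) := by
  by_cases hk : e ∈ mt S dg k
  · have h1 : ∀ u : Fin k → (Fin k → Fin b) → Fin M, wv L Y S T u dg nu y = wv L Y S (insert e T) u dg nu y := by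
      intro u
      funext e'
      unfold wv
      by_cases h2 : e' = e
      · subst h2
        rw [if_pos he, if_neg heT, if_pos he, if_pos (mem_insert_self _ _), rv_eq_fv hk]
      · have h3 : e' ∈ insert e T ↔ e' ∈ T := by
          rw [mem_insert]
          exact ⟨fun h => h.resolve_left h2, fun h => Or.inr h⟩
        simp only [h3]
    have h2 : (univ.filter fun u : Fin k → (Fin k → Fin b) → Fin M =>
      SignType.sign (MvPolynomial.eval (wv L Y S T u dg nu y) g) ≠
        SignType.sign (MvPolynomial.eval (wv L Y S (insert e T) u dg nu y) g)) = ∅ := by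
      rw [filter_eq_empty_iff]
      intro u _
      rw [h1 u]
      exact fun h => h rfl
    rw [h2, card_empty, zero_mul]
    exact Nat.zero_le _
  obtain ⟨i, hi1, hi2⟩ := exists_level he hk
  refine avg_mask (fun u => SignType.sign (MvPolynomial.eval (wv L Y S T u dg nu y) g) ≠
    SignType.sign (MvPolynomial.eval (wv L Y S (insert e T) u dg nu y) g)) i (pre (i.val + 1) (dg e)) fun u => ?_
  -- the other values do not depend on this mask
  have hne : ∀ e' ∈ S, e' ≠ e → pre (i.val + 1) (dg e') ≠ pre (i.val + 1) (dg e) := by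
    intro e' he' hne h
    exact hi2 (mem_mt.2 ⟨he, Or.inr ⟨e', he', hne, h⟩⟩)
  have hcell : ∀ e' ∈ S, e' ≠ e → ∀ (t : Fin M) (j : Fin k),
      upd u i (pre (i.val + 1) (dg e)) t j (pre (j.val + 1) (dg e')) = u j (pre (j.val + 1) (dg e')) := by
    intro e' he' h1 t j
    refine upd_of_ne _ _ _ _ ?_
    by_cases h2 : j = i
    · subst h2
      exact Or.inr (hne e' he' h1)
    · exact Or.inl h2
  have hfv : ∀ e' ∈ S, e' ≠ e → ∀ t : Fin M, fv L Y (upd u i (pre (i.val + 1) (dg e)) t) dg nu e' =
      fv L Y u dg nu e' := by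
    intro e' he' h1 t
    unfold fv strc
    rw [sum_congr rfl fun j _ => by rw [hcell e' he' h1 t j]]
  have hrv : ∀ e' ∈ S, e' ≠ e → ∀ t : Fin M, rv L Y S (upd u i (pre (i.val + 1) (dg e)) t) dg nu e' =
      rv L Y S u dg nu e' := by
    intro e' he' h1 t
    unfold rv
    rw [sum_congr rfl fun j _ => by rw [hcell e' he' h1 t j]]
  -- the values of `e`
  set σ : ℤ := (L : ℤ) * (Y : ℤ) ^ (k - 1 - i.val) with hσ
  set A : ℤ := ∑ j : Fin k, if j.val < i.val then
    (L : ℤ) * (Y : ℤ) ^ (k - 1 - j.val) * ((u j (pre (j.val + 1) (dg e)) : ℕ) : ℤ) else 0 with hA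
  set B : ℤ := (∑ j : Fin k, if i.val < j.val then
    (L : ℤ) * (Y : ℤ) ^ (k - 1 - j.val) * ((u j (pre (j.val + 1) (dg e)) : ℕ) : ℤ) else 0) + nu e with hB
  have hB0 : 0 ≤ B := by
    refine add_nonneg (sum_nonneg fun j _ => ?_) (hnu e he).1
    split_ifs
    · positivity
    · exact le_rfl
  have hBσ : B < σ := tail_lt hY i (fun j => u j (pre (j.val + 1) (dg e))) (nu e) (hnu e he).2
  have hrve : ∀ t : Fin M, rv L Y S (upd u i (pre (i.val + 1) (dg e)) t) dg nu e = A + σ * ((t : ℕ) : ℤ) := by
    intro t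
    unfold rv
    have h1 : e ∉ mt S dg k := hk
    rw [if_neg h1, add_zero, hA]
    have h2 : σ * ((t : ℕ) : ℤ) = ∑ j : Fin k, if j = i then σ * ((t : ℕ) : ℤ) else 0 := by
      rw [sum_ite_eq' univ i, if_pos (mem_univ _)]
    rw [h2, ← sum_add_distrib]
    refine sum_congr rfl fun j _ => ?_
    rcases lt_trichotomy j.val i.val with h3 | h3 | h3
    · have h4 : j ≠ i := fun h => by rw [h] at h3; exact lt_irrefl _ h3
      rw [if_pos (mt_anti S dg h3.le hi1), if_pos h3, if_neg h4, add_zero, upd_of_ne _ _ _ _ (Or.inl h4)]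
    · have h4 : j = i := Fin.ext h3
      subst h4
      rw [if_pos hi1, if_neg (lt_irrefl _), if_pos rfl, upd_same, zero_add]
    · have h4 : j ≠ i := fun h => by rw [h] at h3; exact lt_irrefl _ h3
      rw [if_neg (fun h => hi2 (mt_anti S dg h3 h)), if_neg (not_lt.2 h3.le), if_neg h4, add_zero]
  have hfve : ∀ t : Fin M, fv L Y (upd u i (pre (i.val + 1) (dg e)) t) dg nu e = A + σ * ((t : ℕ) : ℤ) + B := by
    intro t
    unfold fv strc
    rw [hA, hB, mul_sum]
    have h2 : σ * ((t : ℕ) : ℤ) = ∑ j : Fin k, if j = i then σ * ((t : ℕ) : ℤ) else 0 := by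
      rw [sum_ite_eq' univ i, if_pos (mem_univ _)]
    rw [h2, ← add_assoc, ← sum_add_distrib, ← sum_add_distrib]
    congr 1
    refine sum_congr rfl fun j _ => ?_
    rcases lt_trichotomy j.val i.val with h3 | h3 | h3
    · have h4 : j ≠ i := fun h => by rw [h] at h3; exact lt_irrefl _ h3
      rw [if_pos h3, if_neg h4, if_neg (not_lt.2 h3.le), upd_of_ne _ _ _ _ (Or.inl h4)]
      ring
    · have h4 : j = i := Fin.ext h3
      subst h4
      rw [if_neg (lt_irrefl _), if_pos rfl, upd_same]
      ring
    · have h4 : j ≠ i := fun h => by rw [h] at h3; exact lt_irrefl _ h3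
      rw [if_neg (not_lt.2 h3.le), if_neg h4, if_pos h3, upd_of_ne _ _ _ _ (Or.inl h4)]
      ring
  -- the polynomial in the value of `e`
  have hw1 : ∀ t : Fin M, wv L Y S T (upd u i (pre (i.val + 1) (dg e)) t) dg nu y =
      Function.update (wv L Y S T u dg nu y) e ((A : ℝ) + (σ : ℝ) * (t : ℕ) + (B : ℝ)) := by
    intro t
    funext e'
    by_cases h1 : e' = e
    · subst h1
      rw [Function.update_self]
      unfold wv
      rw [if_pos he, if_neg heT, hfve t]
      push_cast
      ring
    · rw [Function.update_of_ne h1]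
      unfold wv
      by_cases h2 : e' ∈ S
      · rw [if_pos h2, if_pos h2, hfv e' h2 h1 t, hrv e' h2 h1 t]
      · rw [if_neg h2, if_neg h2]
  have hw2 : ∀ t : Fin M, wv L Y S (insert e T) (upd u i (pre (i.val + 1) (dg e)) t) dg nu y =
      Function.update (wv L Y S T u dg nu y) e ((A : ℝ) + (σ : ℝ) * (t : ℕ)) := by
    intro t
    funext e'
    by_cases h1 : e' = e
    · subst h1
      rw [Function.update_self]
      unfold wv
      rw [if_pos he, if_pos (mem_insert_self _ _), hrve t]
      push_cast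
      ring
    · rw [Function.update_of_ne h1]
      have h3 : e' ∈ insert e T ↔ e' ∈ T := by
        rw [mem_insert]
        exact ⟨fun h => h.resolve_left h1, fun h => Or.inr h⟩
      unfold wv
      by_cases h2 : e' ∈ S
      · rw [if_pos h2, if_pos h2, hfv e' h2 h1 t, hrv e' h2 h1 t]
        simp only [h3]
      · rw [if_neg h2, if_neg h2]
  have key := one_mask (M := M) (line g (wv L Y S T u dg nu y) e) ((line_natDegree _ _ _).trans hg) (A : ℝ) (σ : ℝ)
    (B : ℝ) (by exact_mod_cast hB0) (by exact_mod_cast hBσ)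
  refine le_trans (card_le_card ?_) key
  intro t ht
  rw [mem_filter] at ht ⊢
  refine ⟨mem_univ _, ?_⟩
  have h1 := ht.2
  rw [hw1 t, hw2 t, ← line_eval, ← line_eval] at h1
  exact h1

open Classical in
/-- The hybrid argument, for the elements of `T ⊆ S`. -/
theorem hybrid_aux {L Y d : ℕ} (hY : M ≤ Y) (S : Finset El) (dg : El → Fin k → Fin b) (nu : El → ℤ)
    (hnu : ∀ e ∈ S, 0 ≤ nu e ∧ nu e < L) (y : El → ℝ) (g : MvPolynomial El ℝ) (hg : ∀ e ∈ S, g.degreeOf e ≤ d)
    (T : Finset El) (hT : T ⊆ S) :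
    (univ.filter fun u : Fin k → (Fin k → Fin b) → Fin M =>
      SignType.sign (MvPolynomial.eval (wv L Y S ∅ u dg nu y) g) ≠
        SignType.sign (MvPolynomial.eval (wv L Y S T u dg nu y) g)).card * M ≤
      T.card * d * Fintype.card (Fin k → (Fin k → Fin b) → Fin M) := by
  induction T using Finset.induction_on with
  | empty => simp
  | insert e T heT ih =>
    have h1 := ih (fun x hx => hT (mem_insert_of_mem hx))
    have h2 := step hY S T dg nu hnu y g (hT (mem_insert_self e T)) heT (hg e (hT (mem_insert_self e T)))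
    have h3 : (univ.filter fun u : Fin k → (Fin k → Fin b) → Fin M =>
        SignType.sign (MvPolynomial.eval (wv L Y S ∅ u dg nu y) g) ≠
          SignType.sign (MvPolynomial.eval (wv L Y S (insert e T) u dg nu y) g)).card ≤
        (univ.filter fun u : Fin k → (Fin k → Fin b) → Fin M =>
          SignType.sign (MvPolynomial.eval (wv L Y S ∅ u dg nu y) g) ≠
            SignType.sign (MvPolynomial.eval (wv L Y S T u dg nu y) g)).card +
        (univ.filter fun u : Fin k → (Fin k → Fin b) → Fin M =>
          SignType.sign (MvPolynomial.eval (wv L Y S T u dg nu y) g) ≠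
            SignType.sign (MvPolynomial.eval (wv L Y S (insert e T) u dg nu y) g)).card := by
      refine le_trans (card_le_card ?_) (card_union_le _ _)
      intro u hu
      rw [mem_filter] at hu
      rw [mem_union, mem_filter, mem_filter]
      by_contra h4
      push Not at h4
      exact hu.2 ((h4.1 (mem_univ _)).trans (h4.2 (mem_univ _)))
    calc _ ≤ _ * M := Nat.mul_le_mul_right M h3
      _ = _ := add_mul _ _ _
      _ ≤ _ := Nat.add_le_add h1 h2
      _ = _ := by
        rw [card_insert_of_notMem heT]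
        ring

open Classical in
/-- PL, piece D: if the values of the elements of `S` are replaced by their revealed parts, the sign of a polynomial of
degree at most `d` in each of them changes for at most a proportion `|S| d / M` of the masks. The values `y` outside `S`
are arbitrary. -/
theorem hybrid {L Y d : ℕ} (hY : M ≤ Y) (S : Finset El) (dg : El → Fin k → Fin b) (nu : El → ℤ)
    (hnu : ∀ e ∈ S, 0 ≤ nu e ∧ nu e < L) (y : El → ℝ) (g : MvPolynomial El ℝ) (hg : ∀ e ∈ S, g.degreeOf e ≤ d) :
    (univ.filter fun u : Fin k → (Fin k → Fin b) → Fin M =>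
      SignType.sign (MvPolynomial.eval (fun e => if e ∈ S then (fv L Y u dg nu e : ℝ) else y e) g) ≠
        SignType.sign (MvPolynomial.eval (fun e => if e ∈ S then (rv L Y S u dg nu e : ℝ) else y e) g)).card * M ≤
      S.card * d * Fintype.card (Fin k → (Fin k → Fin b) → Fin M) := by
  have h := hybrid_aux hY S dg nu hnu y g hg S (Subset.refl S)
  have h1 : ∀ u : Fin k → (Fin k → Fin b) → Fin M, wv L Y S ∅ u dg nu y =
      fun e => if e ∈ S then (fv L Y u dg nu e : ℝ) else y e := by
    intro u
    funext e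
    simp [wv]
  have h2 : ∀ u : Fin k → (Fin k → Fin b) → Fin M, wv L Y S S u dg nu y =
      fun e => if e ∈ S then (rv L Y S u dg nu e : ℝ) else y e := by
    intro u
    funext e
    by_cases he : e ∈ S
    · simp [wv, he]
    · simp [wv, he]
  simp only [h1, h2] at h
  exact h

end hybrid

end Pool.Agent.Helper64.PL
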